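import Pool.Agent.Y789.TQ.Quad

/-! Homogeneous forms in the momenta with smooth periodic coefficients, and Poisson brackets. -/

set_option autoImplicit false

open Set Filter Topology
open scoped ContDiff

namespace Pool.Agent.Y789.TQ

open Pool.Agent.TH309.Tor

abbrev Pt := Fin 2 → ℝ

/-- The energy of the metric `g` as a function of the point and the momentum. -/
noncomputable def energy (g : Pt → Fin 2 → Fin 2 → ℝ) (x p : Pt) : ℝ :=
  (1 / 2 : ℝ) * dotProduct p ((Matrix.of (g x))⁻¹.mulVec p)

/-- The Poisson bracket of two functions of the point and the momentum. -/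
noncomputable def bracket (F G : Pt → Pt → ℝ) (x p : Pt) : ℝ :=
  ∑ k : Fin 2,
    (fderiv ℝ (fun y => F y p) x (Pi.single k (1 : ℝ)) *
        fderiv ℝ (fun q => G x q) p (Pi.single k (1 : ℝ)) -
      fderiv ℝ (fun q => F x q) p (Pi.single k (1 : ℝ)) *
        fderiv ℝ (fun y => G y p) x (Pi.single k (1 : ℝ)))

/-- Differentiability in both variables separately. -/
def SD (F : Pt → Pt → ℝ) : Prop :=
  (∀ p, Differentiable ℝ (fun x => F x p)) ∧ ∀ x, Differentiable ℝ (fun p => F x p)

theorem bracket_mul {F G H : Pt → Pt → ℝ} (hF : SD F) (hG : SD G) (x p : Pt) :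
    bracket (fun x p => F x p * G x p) H x p =
      F x p * bracket G H x p + G x p * bracket F H x p := by
  have h1 : fderiv ℝ (fun y => F y p * G y p) x =
      F x p • fderiv ℝ (fun y => G y p) x + G x p • fderiv ℝ (fun y => F y p) x :=
    ((hF.1 p x).hasFDerivAt.mul (hG.1 p x).hasFDerivAt).fderiv
  have h2 : fderiv ℝ (fun q => F x q * G x q) p =
      F x p • fderiv ℝ (fun q => G x q) p + G x p • fderiv ℝ (fun q => F x q) p :=
    ((hF.2 x p).hasFDerivAt.mul (hG.2 x p).hasFDerivAt).fderiv
  unfold bracket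
  rw [Fin.sum_univ_two, Fin.sum_univ_two, Fin.sum_univ_two]
  simp only [h1, h2, add_apply, smul_apply, smul_eq_mul]
  ring

theorem bracket_self (F : Pt → Pt → ℝ) (x p : Pt) : bracket F F x p = 0 := by
  unfold bracket
  rw [Fin.sum_univ_two]
  ring

/-- A homogeneous form of degree `d` in the momenta, with smooth periodic coefficients. -/
def HForm (d : ℕ) (F : Pt → Pt → ℝ) : Prop :=
  ∃ c : ℕ → Pt → ℝ, (∀ i, ContDiff ℝ ∞ (c i)) ∧
    (∀ i (x : Pt) (v : Fin 2 → ℤ), c i (x + fun k => (v k : ℝ)) = c i x) ∧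
    ∀ x p : Pt, F x p = ∑ i ∈ Finset.range (d + 1), c i x * p 0 ^ i * p 1 ^ (d - i)

theorem HForm.sd {d : ℕ} {F : Pt → Pt → ℝ} (h : HForm d F) : SD F := by
  obtain ⟨c, h1, h2, h3⟩ := h
  constructor
  · intro p
    have e : (fun x => F x p) = fun x => ∑ i ∈ Finset.range (d + 1), c i x * p 0 ^ i *
      p 1 ^ (d - i) := by funext x; exact h3 x p
    rw [e]
    refine Differentiable.fun_sum fun i _ => ?_
    exact (((h1 i).differentiable (by simp)).mul_const _).mul_const _
  · intro x
    have e : (fun p => F x p) = fun p : Pt => ∑ i ∈ Finset.range (d + 1), c i x * p 0 ^ i *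
      p 1 ^ (d - i) := by funext p; exact h3 x p
    rw [e]
    refine Differentiable.fun_sum fun i _ => ?_
    fun_prop

theorem HForm.one : HForm 0 (fun _ _ => 1) := by
  refine ⟨fun _ _ => 1, fun _ => contDiff_const, fun _ _ _ => rfl, ?_⟩
  intro x p
  simp

theorem HForm.mul {d e : ℕ} {F G : Pt → Pt → ℝ} (hF : HForm d F) (hG : HForm e G) :
    HForm (d + e) (fun x p => F x p * G x p) := by
  obtain ⟨c, h1, h2, h3⟩ := hF
  obtain ⟨c', h1', h2', h3'⟩ := hG
  refine ⟨fun k x => ∑ i ∈ Finset.range (d + 1), ∑ j ∈ Finset.range (e + 1),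
    if i + j = k then c i x * c' j x else 0, ?_, ?_, ?_⟩
  · intro k
    refine ContDiff.sum fun i _ => ContDiff.sum fun j _ => ?_
    split_ifs
    · exact (h1 i).mul (h1' j)
    · exact contDiff_const
  · intro k x v
    refine Finset.sum_congr rfl fun i _ => Finset.sum_congr rfl fun j _ => ?_
    rw [h2, h2']
  · intro x p
    show F x p * G x p = _
    rw [h3, h3', Finset.sum_mul_sum]
    beta_reduce
    have e1 : ∀ k ∈ Finset.range (d + e + 1),
        (∑ i ∈ Finset.range (d + 1), ∑ j ∈ Finset.range (e + 1),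
          if i + j = k then c i x * c' j x else 0) * p 0 ^ k * p 1 ^ (d + e - k) =
        ∑ i ∈ Finset.range (d + 1), ∑ j ∈ Finset.range (e + 1),
          if i + j = k then c i x * c' j x * p 0 ^ k * p 1 ^ (d + e - k) else 0 := by
      intro k _
      rw [Finset.sum_mul, Finset.sum_mul]
      refine Finset.sum_congr rfl fun i _ => ?_
      rw [Finset.sum_mul, Finset.sum_mul]
      refine Finset.sum_congr rfl fun j _ => ?_
      split_ifs <;> ring
    rw [Finset.sum_congr rfl e1]
    symm
    rw [Finset.sum_comm]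
    refine Finset.sum_congr rfl fun i hi => ?_
    rw [Finset.sum_comm]
    refine Finset.sum_congr rfl fun j hj => ?_
    rw [Finset.mem_range] at hi hj
    rw [Finset.sum_ite_eq, if_pos (Finset.mem_range.2 (by omega))]
    have e2 : d + e - (i + j) = (d - i) + (e - j) := by omega
    rw [e2, pow_add, pow_add]
    ring

theorem HForm.pow {d : ℕ} {F : Pt → Pt → ℝ} (hF : HForm d F) (n : ℕ) :
    HForm (d * n) (fun x p => F x p ^ n) := by
  induction n with
  | zero => simpa using HForm.one
  | succ n ih =>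
    have := ih.mul hF
    simpa only [pow_succ, Nat.mul_succ] using this

theorem bracket_pow {d : ℕ} {F H : Pt → Pt → ℝ} (hF : HForm d F)
    (h : ∀ x p, bracket F H x p = 0) (n : ℕ) (x p : Pt) :
    bracket (fun x p => F x p ^ n) H x p = 0 := by
  induction n with
  | zero =>
    unfold bracket
    simp
  | succ n ih =>
    have := bracket_mul (H := H) (hF.pow n).sd hF.sd x p
    simp only [pow_succ]
    rw [this, ih, h]
    ring

theorem HForm.double {d : ℕ} {F : Pt → Pt → ℝ} (hF : HForm d F) {x0 p0 : Pt}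
    (hne : F x0 p0 ≠ 0) : ∃ a : ℕ → ℕ → Pt → ℝ,
    (∀ x p, F x p = ∑ i ∈ Finset.range (d + 1), ∑ j ∈ Finset.range (d + 1 - i),
      a i j x * p 0 ^ i * p 1 ^ j) ∧
    (∀ i j, ContDiff ℝ ∞ (a i j)) ∧
    (∀ i j (x : Pt) (v : Fin 2 → ℤ), a i j (x + fun k => (v k : ℝ)) = a i j x) ∧
    ∃ i j x, i + j = d ∧ a i j x ≠ 0 := by
  obtain ⟨c, h1, h2, h3⟩ := hF
  refine ⟨fun i j x => if i + j = d then c i x else 0, ?_, ?_, ?_, ?_⟩
  · intro x p
    rw [h3]
    refine Finset.sum_congr rfl fun i hi => ?_
    rw [Finset.mem_range] at hi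
    rw [Finset.sum_eq_single (d - i)]
    · beta_reduce
      rw [if_pos (by omega)]
    · intro j _ hj
      beta_reduce
      rw [if_neg (by omega)]
      ring
    · intro h
      exact absurd (Finset.mem_range.2 (by omega)) h
  · intro i j
    by_cases h : i + j = d
    · simp only [h, if_true]; exact h1 i
    · simp only [h, if_false]; exact contDiff_const
  · intro i j x v
    simp only [h2]
  · rw [h3] at hne
    obtain ⟨i, hi, hi2⟩ := Finset.exists_ne_zero_of_sum_ne_zero hne
    rw [Finset.mem_range] at hi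
    refine ⟨i, d - i, x0, by omega, ?_⟩
    beta_reduce
    rw [if_pos (by omega)]
    intro h
    exact hi2 (by rw [h]; ring)

end Pool.Agent.Y789.TQ
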