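import Pool.Agent.Y789.TQ.Forms

/-! The metric and its integrals. -/

set_option autoImplicit false

open Set Filter Topology
open scoped ContDiff

namespace Pool.Agent.Y789.TQ

open Pool.Agent.TH309.Tor

variable (P : Pack)

noncomputable def sF (x : Pt) : ℝ := V2 P.S x
noncomputable def aF (x : Pt) : ℝ := V2 P.A x
noncomputable def bF (x : Pt) : ℝ := V2 P.B x

theorem dS' : Differentiable ℝ P.S := P.contDiff_S.differentiable (by simp)
theorem dA' : Differentiable ℝ P.A := P.contDiff_A.differentiable (by simp)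
theorem dB' : Differentiable ℝ P.B := P.contDiff_B.differentiable (by simp)

theorem sF_contDiff : ContDiff ℝ ∞ (sF P) := V2_contDiff P.contDiff_S
theorem aF_contDiff : ContDiff ℝ ∞ (aF P) := V2_contDiff P.contDiff_A
theorem bF_contDiff : ContDiff ℝ ∞ (bF P) := V2_contDiff P.contDiff_B

theorem sF_pos (x : Pt) : 0 < sF P x := P.S_pos _

theorem sF_per (x : Pt) (v : Fin 2 → ℤ) : sF P (x + fun k => (v k : ℝ)) = sF P x :=
  V2_per (P := P) (f := fun w => 1 + w.1) x v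
theorem aF_per (x : Pt) (v : Fin 2 → ℤ) : aF P (x + fun k => (v k : ℝ)) = aF P x :=
  V2_per (P := P) (f := fun w => w.2.1) x v
theorem bF_per (x : Pt) (v : Fin 2 → ℤ) : bF P (x + fun k => (v k : ℝ)) = bF P x :=
  V2_per (P := P) (f := fun w => w.2.2) x v

/-- the metric -/
noncomputable def gT (x : Pt) (i j : Fin 2) : ℝ := (if i = j then (2 : ℝ) else 1) / sF P x

theorem gT_contDiff (i j : Fin 2) : ContDiff ℝ ∞ (fun x => gT P x i j) :=
  contDiff_const.div (sF_contDiff P) fun x => (sF_pos P x).ne'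

theorem gT_posDef (x : Pt) : (Matrix.of (gT P x)).PosDef := posDef_g (sF_pos P x)

theorem gT_per (x : Pt) (v : Fin 2 → ℤ) : gT P (x + fun k => (v k : ℝ)) = gT P x := by
  funext i j
  unfold gT
  rw [sF_per]

theorem energy_eq (x p : Pt) :
    energy (gT P) x p = sF P x / 3 * (p 0 ^ 2 - p 0 * p 1 + p 1 ^ 2) := by
  unfold energy
  have h : (Matrix.of (gT P x))⁻¹ = _ := inv_g (sF_pos P x)
  rw [h]
  simp [Matrix.mulVec, dotProduct, Fin.sum_univ_two]
  ring

/-- the cubic integral -/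
noncomputable def cub (x p : Pt) : ℝ :=
  aF P x * p 0 ^ 3 + (1 + bF P x - aF P x) * (p 0 ^ 2 * p 1) -
    (1 + bF P x - aF P x) * (p 0 * p 1 ^ 2) + bF P x * p 1 ^ 3

theorem hform_cub : HForm 3 (cub P) := by
  refine ⟨fun i => if i = 3 then aF P else if i = 2 then fun x => 1 + bF P x - aF P x else
    if i = 1 then fun x => -(1 + bF P x - aF P x) else bF P, ?_, ?_, ?_⟩
  · intro i
    beta_reduce
    split_ifs
    · exact aF_contDiff P
    · exact (contDiff_const.add (bF_contDiff P)).sub (aF_contDiff P)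
    · exact ((contDiff_const.add (bF_contDiff P)).sub (aF_contDiff P)).neg
    · exact bF_contDiff P
  · intro i x v
    beta_reduce
    split_ifs <;> simp only [aF_per, bF_per]
  · intro x p
    simp [Finset.sum_range_succ, cub]
    ring

theorem hform_energy : HForm 2 (energy (gT P)) := by
  refine ⟨fun i => if i = 1 then fun x => -(sF P x / 3) else fun x => sF P x / 3, ?_, ?_, ?_⟩
  · intro i
    beta_reduce
    split_ifs
    · exact ((sF_contDiff P).div_const 3).neg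
    · exact (sF_contDiff P).div_const 3
  · intro i x v
    beta_reduce
    split_ifs <;> simp only [sF_per]
  · intro x p
    rw [energy_eq]
    simp [Finset.sum_range_succ]
    ring

theorem k0 (p : Pt) : HasFDerivAt (fun y : Fin 2 → ℝ => y 0) (ContinuousLinearMap.proj (R := ℝ)
    (φ := fun _ : Fin 2 => ℝ) 0) p := hasFDerivAt_apply 0 p

theorem k1 (p : Pt) : HasFDerivAt (fun y : Fin 2 → ℝ => y 1) (ContinuousLinearMap.proj (R := ℝ)
    (φ := fun _ : Fin 2 => ℝ) 1) p := hasFDerivAt_apply 1 p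

theorem k02 (p : Pt) : HasFDerivAt (fun y : Fin 2 → ℝ => y 0 ^ 2) ((((2 : ℕ) : ℝ) * p 0 ^ (2 - 1)) •
    (ContinuousLinearMap.proj (R := ℝ) (φ := fun _ : Fin 2 => ℝ) 0)) p := by
  have := HasDerivAt.comp_hasFDerivAt p (hasDerivAt_pow 2 (p 0)) (k0 p)
  exact this

theorem k03 (p : Pt) : HasFDerivAt (fun y : Fin 2 → ℝ => y 0 ^ 3) ((((3 : ℕ) : ℝ) * p 0 ^ (3 - 1)) •
    (ContinuousLinearMap.proj (R := ℝ) (φ := fun _ : Fin 2 => ℝ) 0)) p := by
  have := HasDerivAt.comp_hasFDerivAt p (hasDerivAt_pow 3 (p 0)) (k0 p)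
  exact this

theorem k12 (p : Pt) : HasFDerivAt (fun y : Fin 2 → ℝ => y 1 ^ 2) ((((2 : ℕ) : ℝ) * p 1 ^ (2 - 1)) •
    (ContinuousLinearMap.proj (R := ℝ) (φ := fun _ : Fin 2 => ℝ) 1)) p := by
  have := HasDerivAt.comp_hasFDerivAt p (hasDerivAt_pow 2 (p 1)) (k1 p)
  exact this

theorem k13 (p : Pt) : HasFDerivAt (fun y : Fin 2 → ℝ => y 1 ^ 3) ((((3 : ℕ) : ℝ) * p 1 ^ (3 - 1)) •
    (ContinuousLinearMap.proj (R := ℝ) (φ := fun _ : Fin 2 => ℝ) 1)) p := by
  have := HasDerivAt.comp_hasFDerivAt p (hasDerivAt_pow 3 (p 1)) (k1 p)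
  exact this

theorem bracket_cub (x p : Pt) : bracket (cub P) (energy (gT P)) x p = 0 := by
  have s1 := V2_deriv (dS' P) x
  have a1 := V2_deriv (dA' P) x
  have b1 := V2_deriv (dB' P) x
  have D1 := (((a1.mul_const (p 0 ^ 3)).fun_add
    (((b1.const_add 1).fun_sub a1).mul_const (p 0 ^ 2 * p 1))).fun_sub
    (((b1.const_add 1).fun_sub a1).mul_const (p 0 * p 1 ^ 2))).fun_add
    (b1.mul_const (p 1 ^ 3))
  have D2 := ((((k03 p).const_mul (aF P x)).fun_add
    (((k02 p).fun_mul (k1 p)).const_mul (1 + bF P x - aF P x))).fun_sub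
    (((k0 p).fun_mul (k12 p)).const_mul (1 + bF P x - aF P x))).fun_add
    ((k13 p).const_mul (bF P x))
  have D3 := (s1.mul_const (1 / 3)).mul_const (p 0 ^ 2 - p 0 * p 1 + p 1 ^ 2)
  have D4 := (((k02 p).fun_sub ((k0 p).fun_mul (k1 p))).fun_add (k12 p)).const_mul
    (sF P x / 3)
  have E3 : (fun y => energy (gT P) y p) = fun y => V2 P.S y * (1 / 3) *
      (p 0 ^ 2 - p 0 * p 1 + p 1 ^ 2) := by
    funext y; rw [energy_eq P y p]; unfold sF; ring
  have E4 : (fun q => energy (gT P) x q) = fun q : Fin 2 → ℝ =>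
      sF P x / 3 * (q 0 ^ 2 - q 0 * q 1 + q 1 ^ 2) := by
    funext q; exact energy_eq P x q
  have E1 : (fun y => cub P y p) = fun y => V2 P.A y * p 0 ^ 3 +
      (1 + V2 P.B y - V2 P.A y) * (p 0 ^ 2 * p 1) -
      (1 + V2 P.B y - V2 P.A y) * (p 0 * p 1 ^ 2) + V2 P.B y * p 1 ^ 3 := rfl
  have E2 : (fun q => cub P x q) = fun q : Fin 2 → ℝ => aF P x * q 0 ^ 3 +
      (1 + bF P x - aF P x) * (q 0 ^ 2 * q 1) -
      (1 + bF P x - aF P x) * (q 0 * q 1 ^ 2) + bF P x * q 1 ^ 3 := rfl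
  unfold bracket
  rw [Fin.sum_univ_two, E1, E2, E3, E4, D1.fderiv, D2.fderiv, D3.fderiv, D4.fderiv]
  obtain ⟨h1, h2, h3⟩ := P.pde (60 * x 0, 60 * x 1)
  have es : sF P x = P.S (60 * x 0, 60 * x 1) := rfl
  have ea : aF P x = P.A (60 * x 0, 60 * x 1) := rfl
  have eb : bF P x = P.B (60 * x 0, 60 * x 1) := rfl
  rw [es, ea, eb]
  simp only [add_apply, sub_apply, smul_apply, ContinuousLinearMap.proj_apply, smul_eq_mul,
    Pi.single_eq_same, Pi.single_eq_of_ne (show (0 : Fin 2) ≠ 1 by decide),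
    Pi.single_eq_of_ne (show (1 : Fin 2) ≠ 0 by decide)]
  push_cast
  linear_combination (60 / 3 * (p 0 ^ 2 - p 0 * p 1 + p 1 ^ 2)) *
    (p 0 ^ 2 * h1 + p 0 * p 1 * h3 + p 1 ^ 2 * h2)

theorem sF_zero : sF P 0 = 1 := by
  have e : P.Psi (60 * 0, 60 * 0) = 0 := by rw [mul_zero]; exact P.Psi_zero
  show 1 + (P.Psi (60 * 0, 60 * 0)).1 = 1
  rw [e]
  simp

theorem aF_zero : aF P 0 = 0 := by
  have e : P.Psi (60 * 0, 60 * 0) = 0 := by rw [mul_zero]; exact P.Psi_zero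
  show (P.Psi (60 * 0, 60 * 0)).2.1 = 0
  rw [e]
  rfl

theorem bF_zero : bF P 0 = 0 := by
  have e : P.Psi (60 * 0, 60 * 0) = 0 := by rw [mul_zero]; exact P.Psi_zero
  show (P.Psi (60 * 0, 60 * 0)).2.2 = 0
  rw [e]
  rfl

theorem cub_zero (p : Pt) : cub P 0 p = p 0 * p 1 * (p 0 - p 1) := by
  unfold cub
  rw [aF_zero, bF_zero]
  ring

theorem energy_zero (p : Pt) : energy (gT P) 0 p = (p 0 ^ 2 - p 0 * p 1 + p 1 ^ 2) / 3 := by
  rw [energy_eq, sF_zero]
  ring

/-- the integrals `F^a H^k` -/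
theorem hform_int (n k : ℕ) :
    HForm (3 * n + 2 * k) (fun x p => cub P x p ^ n * energy (gT P) x p ^ k) :=
  ((hform_cub P).pow n).mul ((hform_energy P).pow k)

theorem bracket_int (n k : ℕ) (x p : Pt) :
    bracket (fun x p => cub P x p ^ n * energy (gT P) x p ^ k) (energy (gT P)) x p = 0 := by
  rw [bracket_mul ((hform_cub P).pow n).sd ((hform_energy P).pow k).sd,
    bracket_pow (hform_cub P) (bracket_cub P) n,
    bracket_pow (hform_energy P) (fun x p => bracket_self _ x p) k]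
  ring

theorem int_ne (n k : ℕ) : cub P 0 ![2, 1] ^ n * energy (gT P) 0 ![2, 1] ^ k ≠ 0 := by
  rw [cub_zero, energy_zero]
  norm_num

theorem odd_nontrivial (k : ℕ) :
    ¬ ∃ q : Polynomial ℝ, ∀ x p, cub P x p ^ 1 * energy (gT P) x p ^ k =
      q.eval (energy (gT P) x p) := by
  rintro ⟨q, hq⟩
  have q1 := hq 0 ![2, 1]
  have q2 := hq 0 ![-2, -1]
  have q3 : energy (gT P) 0 ![-2, -1] = energy (gT P) 0 ![2, 1] := by
    rw [energy_zero, energy_zero]; simp
  rw [q3, ← q1, cub_zero, cub_zero, energy_zero] at q2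
  norm_num at q2

theorem even_nontrivial (k : ℕ) :
    ¬ ∃ q : Polynomial ℝ, ∀ x p, cub P x p ^ 2 * energy (gT P) x p ^ k =
      q.eval (energy (gT P) x p) := by
  rintro ⟨q, hq⟩
  have q1 := hq 0 ![2, 1]
  have q2 := hq 0 ![Real.sqrt 3, 0]
  have e1 : energy (gT P) 0 ![2, 1] = 1 := by
    rw [energy_zero]; norm_num
  have e2 : energy (gT P) 0 ![Real.sqrt 3, 0] = 1 := by
    rw [energy_zero]; norm_num
  rw [e1, cub_zero] at q1
  rw [e2, cub_zero, ← q1] at q2
  norm_num at q2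

/-- the Poisson bracket of a quadratic form with the energy -/
theorem qde_of_bracket {α β γ : Pt → ℝ} (dα : Differentiable ℝ α) (dβ : Differentiable ℝ β)
    (dγ : Differentiable ℝ γ) (x : Pt)
    (h : ∀ p : Pt, bracket (fun x p => α x * p 0 ^ 2 + β x * (p 0 * p 1) + γ x * p 1 ^ 2)
      (energy (gT P)) x p = 0) :
    Qde (P.S (60 * x 0, 60 * x 1)) (α x) (β x) (γ x)
      (60 * fderiv ℝ P.S (60 * x 0, 60 * x 1) (1, 0))
      (60 * fderiv ℝ P.S (60 * x 0, 60 * x 1) (0, 1))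
      (fderiv ℝ α x (Pi.single 0 1)) (fderiv ℝ α x (Pi.single 1 1))
      (fderiv ℝ β x (Pi.single 0 1)) (fderiv ℝ β x (Pi.single 1 1))
      (fderiv ℝ γ x (Pi.single 0 1)) (fderiv ℝ γ x (Pi.single 1 1)) := by
  have key : ∀ p : Pt,
      P.S (60 * x 0, 60 * x 1) *
        ((fderiv ℝ α x (Pi.single 0 1) * p 0 ^ 2 + fderiv ℝ β x (Pi.single 0 1) * (p 0 * p 1) +
          fderiv ℝ γ x (Pi.single 0 1) * p 1 ^ 2) * (2 * p 0 - p 1) +
        (fderiv ℝ α x (Pi.single 1 1) * p 0 ^ 2 + fderiv ℝ β x (Pi.single 1 1) * (p 0 * p 1) +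
          fderiv ℝ γ x (Pi.single 1 1) * p 1 ^ 2) * (2 * p 1 - p 0)) -
        (p 0 ^ 2 - p 0 * p 1 + p 1 ^ 2) *
        ((2 * α x * p 0 + β x * p 1) * (60 * fderiv ℝ P.S (60 * x 0, 60 * x 1) (1, 0)) +
        (β x * p 0 + 2 * γ x * p 1) * (60 * fderiv ℝ P.S (60 * x 0, 60 * x 1) (0, 1))) = 0 := by
    intro p
    have hb := h p
    have s1 := V2_deriv (dS' P) x
    have D1 := (((dα x).hasFDerivAt.mul_const (p 0 ^ 2)).fun_add
      ((dβ x).hasFDerivAt.mul_const (p 0 * p 1))).fun_add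
      ((dγ x).hasFDerivAt.mul_const (p 1 ^ 2))
    have D2 := (((k02 p).const_mul (α x)).fun_add
      (((k0 p).fun_mul (k1 p)).const_mul (β x))).fun_add
      ((k12 p).const_mul (γ x))
    have D3 := (s1.mul_const (1 / 3)).mul_const (p 0 ^ 2 - p 0 * p 1 + p 1 ^ 2)
    have D4 := (((k02 p).fun_sub ((k0 p).fun_mul (k1 p))).fun_add (k12 p)).const_mul
      (sF P x / 3)
    have E3 : (fun y => energy (gT P) y p) = fun y => V2 P.S y * (1 / 3) *
        (p 0 ^ 2 - p 0 * p 1 + p 1 ^ 2) := by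
      funext y; rw [energy_eq P y p]; unfold sF; ring
    have E4 : (fun q => energy (gT P) x q) = fun q : Fin 2 → ℝ =>
        sF P x / 3 * (q 0 ^ 2 - q 0 * q 1 + q 1 ^ 2) := by
      funext q; exact energy_eq P x q
    unfold bracket at hb
    rw [Fin.sum_univ_two, E3, E4, D1.fderiv, D2.fderiv, D3.fderiv, D4.fderiv] at hb
    have es : sF P x = P.S (60 * x 0, 60 * x 1) := rfl
    rw [es] at hb
    simp only [add_apply, sub_apply, smul_apply, ContinuousLinearMap.proj_apply, smul_eq_mul,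
      Pi.single_eq_same, Pi.single_eq_of_ne (show (0 : Fin 2) ≠ 1 by decide),
      Pi.single_eq_of_ne (show (1 : Fin 2) ≠ 0 by decide)] at hb
    push_cast at hb
    linear_combination 3 * hb
  have c1 := key ![1, 0]
  have c2 := key ![0, 1]
  have c3 := key ![1, 1]
  have c4 := key ![1, -1]
  simp only [Matrix.cons_val_zero, Matrix.cons_val_one] at c1 c2 c3 c4
  refine ⟨?_, ?_, ?_, ?_⟩
  · linear_combination c1
  · linear_combination (c3 - c4) / 2 - c2
  · linear_combination (c3 + c4) / 2 - c1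
  · linear_combination c2

theorem quad_energy {α β γ : Pt → ℝ} (dα : Differentiable ℝ α) (dβ : Differentiable ℝ β)
    (dγ : Differentiable ℝ γ)
    (pα : ∀ (x : Pt) (v : Fin 2 → ℤ), α (x + fun k => (v k : ℝ)) = α x)
    (pβ : ∀ (x : Pt) (v : Fin 2 → ℤ), β (x + fun k => (v k : ℝ)) = β x)
    (pγ : ∀ (x : Pt) (v : Fin 2 → ℤ), γ (x + fun k => (v k : ℝ)) = γ x)
    (h : ∀ x p : Pt, bracket (fun x p => α x * p 0 ^ 2 + β x * (p 0 * p 1) + γ x * p 1 ^ 2)
      (energy (gT P)) x p = 0) :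
    ∃ r : ℝ, ∀ x p : Pt, α x * p 0 ^ 2 + β x * (p 0 * p 1) + γ x * p 1 ^ 2 =
      r * energy (gT P) x p := by
  -- coordinates on `ℝ × ℝ`
  set κ : ℝ × ℝ →L[ℝ] Pt := ContinuousLinearMap.pi
    (fun i : Fin 2 => if i = 0 then (1 / 60 : ℝ) • ContinuousLinearMap.fst ℝ ℝ ℝ else
      (1 / 60 : ℝ) • ContinuousLinearMap.snd ℝ ℝ ℝ) with hκ
  have hκ0 : ∀ u : ℝ × ℝ, κ u 0 = u.1 / 60 := fun u => by simp [hκ]; ring
  have hκ1 : ∀ u : ℝ × ℝ, κ u 1 = u.2 / 60 := fun u => by simp [hκ]; ring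
  have hκ10 : κ (1, 0) = (1 / 60 : ℝ) • Pi.single 0 1 := by
    ext i; fin_cases i
    · simp [hκ0]
    · simp [hκ1]
  have hκ01 : κ (0, 1) = (1 / 60 : ℝ) • Pi.single 1 1 := by
    ext i; fin_cases i
    · simp [hκ0]
    · simp [hκ1]
  have hpt : ∀ u : ℝ × ℝ, ((60 * κ u 0, 60 * κ u 1) : ℝ × ℝ) = u := by
    intro u
    rw [hκ0, hκ1]
    ext
    · simp only; ring
    · simp only; ring
  have der : ∀ (f : Pt → ℝ), Differentiable ℝ f → ∀ u, HasFDerivAt (fun u => f (κ u))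
      ((fderiv ℝ f (κ u)).comp κ) u := fun f hf u =>
    HasFDerivAt.comp (g := f) (f := κ) u (hf _).hasFDerivAt κ.hasFDerivAt
  have der1 : ∀ (f : Pt → ℝ), Differentiable ℝ f → ∀ u, fderiv ℝ (fun u => f (κ u)) u (1, 0) =
      (1 / 60) * fderiv ℝ f (κ u) (Pi.single 0 1) := by
    intro f hf u
    rw [(der f hf u).fderiv, ContinuousLinearMap.comp_apply, hκ10, map_smul, smul_eq_mul]
  have der2 : ∀ (f : Pt → ℝ), Differentiable ℝ f → ∀ u, fderiv ℝ (fun u => f (κ u)) u (0, 1) =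
      (1 / 60) * fderiv ℝ f (κ u) (Pi.single 1 1) := by
    intro f hf u
    rw [(der f hf u).fderiv, ContinuousLinearMap.comp_apply, hκ01, map_smul, smul_eq_mul]
  have per1 : ∀ (f : Pt → ℝ), (∀ (x : Pt) (v : Fin 2 → ℤ), f (x + fun k => (v k : ℝ)) = f x) →
      ∀ u : ℝ × ℝ, f (κ (u.1 + 60, u.2)) = f (κ u) := by
    intro f hf u
    rw [← hf (κ u) ![1, 0]]
    congr 1
    ext i; fin_cases i
    · simp [hκ0]; ring
    · simp [hκ1]
  have per2 : ∀ (f : Pt → ℝ), (∀ (x : Pt) (v : Fin 2 → ℤ), f (x + fun k => (v k : ℝ)) = f x) →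
      ∀ u : ℝ × ℝ, f (κ (u.1, u.2 + 60)) = f (κ u) := by
    intro f hf u
    rw [← hf (κ u) ![0, 1]]
    congr 1
    ext i; fin_cases i
    · simp [hκ0]
    · simp [hκ1]; ring
  obtain ⟨k, hk⟩ := quad_const P (α := fun u => α (κ u)) (β := fun u => β (κ u))
    (γ := fun u => γ (κ u)) (fun u => (der α dα u).differentiableAt)
    (fun u => (der β dβ u).differentiableAt) (fun u => (der γ dγ u).differentiableAt)
    (per1 α pα) (per2 α pα) (per1 β pβ) (per2 β pβ) (per1 γ pγ) (per2 γ pγ) (by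
      intro u
      obtain ⟨q1, q2, q3, q4⟩ := qde_of_bracket P dα dβ dγ (κ u) (h (κ u))
      rw [hpt] at q1 q2 q3 q4
      rw [der1 α dα, der2 α dα, der1 β dβ, der2 β dβ, der1 γ dγ, der2 γ dγ]
      refine ⟨?_, ?_, ?_, ?_⟩
      · linear_combination q1 / 60
      · linear_combination q2 / 60
      · linear_combination q3 / 60
      · linear_combination q4 / 60)
  refine ⟨3 * k, fun x p => ?_⟩
  have hx : κ (60 * x 0, 60 * x 1) = x := by
    ext i; fin_cases i
    · simp [hκ0]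
    · simp [hκ1]
  have h1 := hk (60 * x 0, 60 * x 1)
  rw [hx] at h1
  obtain ⟨e1, e2, e3⟩ := h1
  rw [e1, e2, e3, energy_eq]
  have es : sF P x = P.S (60 * x 0, 60 * x 1) := rfl
  rw [es]
  ring

/-- There are no nonzero linear integrals. -/
theorem lin_zero {α β : Pt → ℝ} (dα : Differentiable ℝ α) (dβ : Differentiable ℝ β)
    (pα : ∀ (x : Pt) (v : Fin 2 → ℤ), α (x + fun k => (v k : ℝ)) = α x)
    (pβ : ∀ (x : Pt) (v : Fin 2 → ℤ), β (x + fun k => (v k : ℝ)) = β x)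
    (h : ∀ x p : Pt, bracket (fun x p => α x * p 0 + β x * p 1) (energy (gT P)) x p = 0)
    (x : Pt) : α x = 0 ∧ β x = 0 := by
  have sd : SD (fun x p : Pt => α x * p 0 + β x * p 1) :=
    ⟨fun p => (dα.mul_const _).add (dβ.mul_const _), fun x => by fun_prop⟩
  have hb : ∀ x p : Pt, bracket (fun x p => (fun x => α x ^ 2) x * p 0 ^ 2 +
      (fun x => 2 * α x * β x) x * (p 0 * p 1) + (fun x => β x ^ 2) x * p 1 ^ 2)
      (energy (gT P)) x p = 0 := by
    intro x p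
    have e : (fun x p : Pt => (fun x => α x ^ 2) x * p 0 ^ 2 +
      (fun x => 2 * α x * β x) x * (p 0 * p 1) + (fun x => β x ^ 2) x * p 1 ^ 2) =
      fun x p : Pt => (α x * p 0 + β x * p 1) * (α x * p 0 + β x * p 1) := by
      funext x p
      ring
    rw [e, bracket_mul sd sd, h]
    ring
  obtain ⟨r, hr⟩ := quad_energy P (α := fun x => α x ^ 2) (β := fun x => 2 * α x * β x)
    (γ := fun x => β x ^ 2) (dα.pow 2) ((dα.const_mul 2).mul dβ) (dβ.pow 2)
    (fun x v => by simp only [pα]) (fun x v => by simp only [pα, pβ])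
    (fun x v => by simp only [pβ]) hb
  -- evaluate in the kernel of the linear form
  have hx := hr x ![β x, -α x]
  rw [energy_eq] at hx
  simp only [Matrix.cons_val_zero, Matrix.cons_val_one] at hx
  have hs := sF_pos P x
  by_contra hne
  have hne' : β x ≠ 0 ∨ α x ≠ 0 := by
    by_contra hc
    push Not at hc
    exact hne ⟨hc.2, hc.1⟩
  have hpos : 0 < β x ^ 2 - β x * -α x + (-α x) ^ 2 := by
    have := qT_pos (p := β x) (q := -α x) (by
      rcases hne' with h1 | h1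
      · exact Or.inl h1
      · exact Or.inr (neg_ne_zero.2 h1))
    simpa [qT] using this
  have hr0 : r = 0 := by
    have h0 : r * (sF P x / 3 * (β x ^ 2 - β x * -α x + (-α x) ^ 2)) = 0 := by
      rw [← hx]; ring
    exact (mul_eq_zero.1 h0).resolve_right (by positivity)
  have h1 := hr x ![1, 0]
  have h2 := hr x ![0, 1]
  rw [hr0] at h1 h2
  simp only [Matrix.cons_val_zero, Matrix.cons_val_one] at h1 h2
  have h1' : α x ^ 2 = 0 := by linarith
  have h2' : β x ^ 2 = 0 := by linarith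
  exact hne ⟨pow_eq_zero_iff (two_ne_zero) |>.1 h1', pow_eq_zero_iff (two_ne_zero) |>.1 h2'⟩

end Pool.Agent.Y789.TQ
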