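import Pool.Agent.TH309.Tor.Vec

/-! Quadratic integrals of the metric of `TH309.Tor`. -/

set_option autoImplicit false

open Set Filter Topology
open scoped ContDiff

namespace Pool.Agent.Y789.TQ

open Pool.Agent.TH309.Tor

/-- The four equations expressing that `α p² + β p q + γ q²` Poisson-commutes with `σ T`,
`T = p² - pq + q²`; subscripts are partial derivatives. -/
def Qde (σ α β γ σ1 σ2 α1 α2 β1 β2 γ1 γ2 : ℝ) : Prop :=
  σ * (2 * α1 - α2) = 2 * α * σ1 + β * σ2 ∧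
  σ * (-α1 + 2 * β1 + 2 * α2 - β2) = (β * σ1 + 2 * γ * σ2) - (2 * α * σ1 + β * σ2) ∧
  σ * (-β1 + 2 * γ1 + 2 * β2 - γ2) = (2 * α * σ1 + β * σ2) - (β * σ1 + 2 * γ * σ2) ∧
  σ * (-γ1 + 2 * γ2) = β * σ1 + 2 * γ * σ2

theorem hasFDerivAt_smul60 {f : ℝ × ℝ → ℝ} (hf : Differentiable ℝ f) (u : ℝ × ℝ) :
    HasFDerivAt (fun u => f ((60 : ℝ) • u)) ((60 : ℝ) • fderiv ℝ f ((60 : ℝ) • u)) u := by
  have h1 : HasFDerivAt (fun u : ℝ × ℝ => (60 : ℝ) • u)
      ((60 : ℝ) • ContinuousLinearMap.id ℝ (ℝ × ℝ)) u := (hasFDerivAt_id u).const_smul (60 : ℝ)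
  have h2 := HasFDerivAt.comp (g := f) (f := fun u : ℝ × ℝ => (60 : ℝ) • u) u
    (hf ((60 : ℝ) • u)).hasFDerivAt h1
  refine h2.congr_fderiv ?_
  ext <;> simp

/-- A function on a band whose gradient is a fixed covector times a function of the transverse
coordinate. -/
theorem band {h : ℝ × ℝ → ℝ} {l l' : ℝ → ℝ} {c c' : ℝ}
    (hl : ∀ y, 8 < y → y < 12 → HasDerivAt l (l' y) y)
    (h1 : ∀ x y, |x| < 5 → 8 < y → y < 12 → HasDerivAt (fun x => h (x, y)) (c' * l' y) x)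
    (h2 : ∀ x y, |x| < 5 → 8 < y → y < 12 → HasDerivAt (fun y => h (x, y)) (c * l' y) y)
    {y z : ℝ} (hy1 : 8 < y) (hy2 : y < 12) (hz1 : 8 < z) (hz2 : z < 12) :
    c' * (l' y - l' z) = 0 := by
  have key : ∀ x, |x| < 5 → h (x, y) - h (x, z) = c * (l y - l z) := by
    intro x hx
    have hc : ∀ t ∈ Ioo (8 : ℝ) 12, HasDerivAt (fun y => h (x, y) - c * l y) 0 t := by
      intro t ht
      have := (h2 x t hx ht.1 ht.2).sub ((hl t ht.1 ht.2).const_mul c)
      rwa [sub_self] at this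
    have hd : DifferentiableOn ℝ (fun y => h (x, y) - c * l y) (Ioo (8 : ℝ) 12) := fun t ht =>
      (hc t ht).differentiableAt.differentiableWithinAt
    have he := isOpen_Ioo.is_const_of_deriv_eq_zero (isPreconnected_Ioo) hd
      (fun t ht => (hc t ht).deriv) ⟨hy1, hy2⟩ ⟨hz1, hz2⟩
    linarith
  have k1 : HasDerivAt (fun x => h (x, y) - h (x, z)) (c' * l' y - c' * l' z) 0 :=
    (h1 0 y (by norm_num) hy1 hy2).sub (h1 0 z (by norm_num) hz1 hz2)
  have k2 : (fun x => h (x, y) - h (x, z)) =ᶠ[𝓝 0] fun _ => c * (l y - l z) := by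
    have : ∀ᶠ x : ℝ in 𝓝 0, |x| < 5 :=
      continuous_abs.continuousAt.eventually_lt continuousAt_const (by norm_num)
    filter_upwards [this] with x hx
    exact key x hx
  have k3 : HasDerivAt (fun x => h (x, y) - h (x, z)) 0 0 :=
    (hasDerivAt_const (0 : ℝ) (c * (l y - l z))).congr_of_eventuallyEq k2
  have := k1.unique k3
  linarith

theorem fst_line {f : ℝ × ℝ → ℝ} (hf : Differentiable ℝ f) (x y : ℝ) :
    HasDerivAt (fun x => f (x, y)) (fderiv ℝ f (x, y) (1, 0)) x := by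
  have h4 : HasDerivAt (fun t : ℝ => (t, y)) ((1 : ℝ), (0 : ℝ)) x :=
    (hasDerivAt_id x).prodMk (hasDerivAt_const x y)
  exact HasFDerivAt.comp_hasDerivAt (l := f) (f := fun t : ℝ => (t, y)) x
    (hf (x, y)).hasFDerivAt h4

theorem snd_line {f : ℝ × ℝ → ℝ} (hf : Differentiable ℝ f) (x y : ℝ) :
    HasDerivAt (fun y => f (x, y)) (fderiv ℝ f (x, y) (0, 1)) y := by
  have h4 : HasDerivAt (fun t : ℝ => (x, t)) ((0 : ℝ), (1 : ℝ)) y :=
    (hasDerivAt_const y x).prodMk (hasDerivAt_id y)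
  exact HasFDerivAt.comp_hasDerivAt (l := f) (f := fun t : ℝ => (x, t)) y
    (hf (x, y)).hasFDerivAt h4

section

variable (P : Pack)

theorem S_band1 {x y : ℝ} (hx : |x| < 5) (h1 : 8 < y) (h2 : y < 12) :
    P.S (x, y) = 1 + P.tL y := by
  unfold Pack.S
  rw [P.val1 (x, y) hx h1 h2]
  rfl

theorem S_band2 {x y : ℝ} (hx : |x| < 5) (h1 : 8 < y) (h2 : y < 12) :
    P.S (y, x) = 1 + P.tL y := by
  unfold Pack.S
  rw [P.val2 (y, x) hx h1 h2]
  rfl

theorem hdS : Differentiable ℝ P.S := P.contDiff_S.differentiable (by simp)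

theorem ht : Differentiable ℝ P.tL := P.hL.differentiable (by simp)

theorem dS_band1 {x y : ℝ} (hx : |x| < 5) (h1 : 8 < y) (h2 : y < 12) :
    fderiv ℝ P.S (x, y) (1, 0) = 0 ∧ fderiv ℝ P.S (x, y) (0, 1) = deriv P.tL y := by
  constructor
  · have k1 := fst_line (hdS P) x y
    have k2 : (fun x => P.S (x, y)) =ᶠ[𝓝 x] fun _ => 1 + P.tL y := by
      have : ∀ᶠ x' : ℝ in 𝓝 x, |x'| < 5 :=
        continuous_abs.continuousAt.eventually_lt continuousAt_const hx
      filter_upwards [this] with x' hx'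
      exact S_band1 P hx' h1 h2
    exact k1.unique ((hasDerivAt_const x (1 + P.tL y)).congr_of_eventuallyEq k2)
  · have k1 := snd_line (hdS P) x y
    have k2 : (fun y => P.S (x, y)) =ᶠ[𝓝 y] fun y => 1 + P.tL y := by
      filter_upwards [Ioo_mem_nhds h1 h2] with y' hy'
      exact S_band1 P hx hy'.1 hy'.2
    exact k1.unique (((ht P y).hasDerivAt.const_add 1).congr_of_eventuallyEq k2)

theorem dS_band2 {x y : ℝ} (hx : |x| < 5) (h1 : 8 < y) (h2 : y < 12) :
    fderiv ℝ P.S (y, x) (0, 1) = 0 ∧ fderiv ℝ P.S (y, x) (1, 0) = deriv P.tL y := by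
  constructor
  · have k1 := snd_line (hdS P) y x
    have k2 : (fun x => P.S (y, x)) =ᶠ[𝓝 x] fun _ => 1 + P.tL y := by
      have : ∀ᶠ x' : ℝ in 𝓝 x, |x'| < 5 :=
        continuous_abs.continuousAt.eventually_lt continuousAt_const hx
      filter_upwards [this] with x' hx'
      exact S_band2 P hx' h1 h2
    exact k1.unique ((hasDerivAt_const x (1 + P.tL y)).congr_of_eventuallyEq k2)
  · have k1 := fst_line (hdS P) y x
    have k2 : (fun y => P.S (y, x)) =ᶠ[𝓝 y] fun y => 1 + P.tL y := by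
      filter_upwards [Ioo_mem_nhds h1 h2] with y' hy'
      exact S_band2 P hx hy'.1 hy'.2
    exact k1.unique (((ht P y).hasDerivAt.const_add 1).congr_of_eventuallyEq k2)

/-- the derivative of the conformal factor, up to sign -/
noncomputable def l' (y : ℝ) : ℝ := deriv P.tL y / (1 + P.tL y) ^ 2

theorem hasDeriv_l (y : ℝ) : HasDerivAt (fun y => -(1 + P.tL y)⁻¹) (l' P y) y := by
  have h1 := ((ht P y).hasDerivAt.const_add 1).fun_inv (P.pL y).ne'
  refine h1.neg.congr_deriv ?_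
  unfold l'
  ring

theorem tL_deriv_zero : deriv P.tL (17 / 2) = 0 := by
  have : P.tL =ᶠ[𝓝 (17 / 2 : ℝ)] fun _ => 0 := by
    filter_upwards [Iio_mem_nhds (show (17 / 2 : ℝ) < 9 by norm_num)] with y hy
    exact P.zL y (Or.inl (le_of_lt hy))
  rw [this.deriv_eq]
  simp

theorem l'_zero : l' P (17 / 2) = 0 := by
  unfold l'
  rw [tL_deriv_zero]
  simp

theorem slope_l {c : ℝ} (h : ∀ y, 8 < y → y < 12 → c * (l' P y - l' P (17 / 2)) = 0) : c = 0 := by
  refine P.tL_slope fun y h1 h2 => ?_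
  have := h y h1 h2
  rw [l'_zero, sub_zero] at this
  unfold l' at this
  have hp := P.pL y
  have h3 : c * deriv P.tL y / (1 + P.tL y) ^ 2 = 0 := by
    rw [← this]; ring
  rcases div_eq_zero_iff.1 h3 with h4 | h4
  · exact h4
  · exact absurd h4 (by positivity)

/-- Every quadratic integral is a constant multiple of the energy. -/
theorem quad_const {α β γ : ℝ × ℝ → ℝ} (dα : Differentiable ℝ α) (dβ : Differentiable ℝ β)
    (dγ : Differentiable ℝ γ)
    (pα1 : ∀ u : ℝ × ℝ, α (u.1 + 60, u.2) = α u) (pα2 : ∀ u : ℝ × ℝ, α (u.1, u.2 + 60) = α u)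
    (pβ1 : ∀ u : ℝ × ℝ, β (u.1 + 60, u.2) = β u) (pβ2 : ∀ u : ℝ × ℝ, β (u.1, u.2 + 60) = β u)
    (pγ1 : ∀ u : ℝ × ℝ, γ (u.1 + 60, u.2) = γ u) (pγ2 : ∀ u : ℝ × ℝ, γ (u.1, u.2 + 60) = γ u)
    (hq : ∀ u, Qde (P.S u) (α u) (β u) (γ u) (fderiv ℝ P.S u (1, 0)) (fderiv ℝ P.S u (0, 1))
      (fderiv ℝ α u (1, 0)) (fderiv ℝ α u (0, 1)) (fderiv ℝ β u (1, 0)) (fderiv ℝ β u (0, 1))
      (fderiv ℝ γ u (1, 0)) (fderiv ℝ γ u (0, 1))) :
    ∃ k : ℝ, ∀ u, α u = k * P.S u ∧ β u = -(k * P.S u) ∧ γ u = k * P.S u := by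
  -- the trace free part is holomorphic, hence constant
  have hcr : ∀ u, (fderiv ℝ β u (1, 0) + fderiv ℝ γ u (1, 0) =
      -(fderiv ℝ α u (0, 1) - fderiv ℝ γ u (0, 1))) ∧
      (fderiv ℝ β u (0, 1) + fderiv ℝ γ u (0, 1) =
      (fderiv ℝ α u (1, 0) - fderiv ℝ γ u (1, 0)) -
        (fderiv ℝ α u (0, 1) - fderiv ℝ γ u (0, 1))) := by
    intro u
    obtain ⟨q1, q2, q3, q4⟩ := hq u
    have hS := P.S_pos u
    set σ := P.S u
    set σ1 := fderiv ℝ P.S u (1, 0)
    set σ2 := fderiv ℝ P.S u (0, 1)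
    set α1 := fderiv ℝ α u (1, 0)
    set α2 := fderiv ℝ α u (0, 1)
    set β1 := fderiv ℝ β u (1, 0)
    set β2 := fderiv ℝ β u (0, 1)
    set γ1 := fderiv ℝ γ u (1, 0)
    set γ2 := fderiv ℝ γ u (0, 1)
    have E1 : -α1 + β1 + 2 * γ1 + 2 * α2 + β2 - γ2 = 0 := by
      have : σ * (-α1 + β1 + 2 * γ1 + 2 * α2 + β2 - γ2) = 0 := by linear_combination q2 + q3
      exact (mul_eq_zero.1 this).resolve_left hS.ne'
    have E2 : α1 + α2 + 2 * β1 - β2 + γ1 - 2 * γ2 = 0 := by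
      have : σ * (α1 + α2 + 2 * β1 - β2 + γ1 - 2 * γ2) = 0 := by
        linear_combination q1 + q2 - q4
      exact (mul_eq_zero.1 this).resolve_left hS.ne'
    constructor
    · linarith
    · linarith
  have hconst : ∀ u v : ℝ × ℝ, (α ((60 : ℝ) • u) - γ ((60 : ℝ) • u) =
      α ((60 : ℝ) • v) - γ ((60 : ℝ) • v)) ∧ (β ((60 : ℝ) • u) + γ ((60 : ℝ) • u) =
      β ((60 : ℝ) • v) + γ ((60 : ℝ) • v)) := by
    have hX : ∀ u, HasFDerivAt (fun u => α ((60 : ℝ) • u) - γ ((60 : ℝ) • u))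
        ((60 : ℝ) • fderiv ℝ α ((60 : ℝ) • u) - (60 : ℝ) • fderiv ℝ γ ((60 : ℝ) • u)) u := fun u =>
      (hasFDerivAt_smul60 dα u).sub (hasFDerivAt_smul60 dγ u)
    have hY : ∀ u, HasFDerivAt (fun u => β ((60 : ℝ) • u) + γ ((60 : ℝ) • u))
        ((60 : ℝ) • fderiv ℝ β ((60 : ℝ) • u) + (60 : ℝ) • fderiv ℝ γ ((60 : ℝ) • u)) u := fun u =>
      (hasFDerivAt_smul60 dβ u).add (hasFDerivAt_smul60 dγ u)
    have s1 : ∀ u : ℝ × ℝ, (60 : ℝ) • ((u.1 + 1, u.2) : ℝ × ℝ) =
        (((60 : ℝ) • u).1 + 60, ((60 : ℝ) • u).2) := by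
      intro u; ext <;> simp; ring
    have s2 : ∀ u : ℝ × ℝ, (60 : ℝ) • ((u.1, u.2 + 1) : ℝ × ℝ) =
        (((60 : ℝ) • u).1, ((60 : ℝ) • u).2 + 60) := by
      intro u; ext <;> simp; ring
    refine const_of_cr (X := fun u => α ((60 : ℝ) • u) - γ ((60 : ℝ) • u))
      (Y := fun u => β ((60 : ℝ) • u) + γ ((60 : ℝ) • u)) (fun u => (hX u).differentiableAt)
      (fun u => (hY u).differentiableAt) ?_ ?_ ?_ ?_ ?_ ?_
    · intro u; rw [s1, pα1, pγ1]
    · intro u; rw [s2, pα2, pγ2]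
    · intro u; rw [s1, pβ1, pγ1]
    · intro u; rw [s2, pβ2, pγ2]
    · intro u
      rw [(hX u).fderiv, (hY u).fderiv]
      have := (hcr ((60 : ℝ) • u)).1
      simp only [add_apply, sub_apply, smul_apply, smul_eq_mul]
      linear_combination 60 * this
    · intro u
      rw [(hX u).fderiv, (hY u).fderiv]
      have := (hcr ((60 : ℝ) • u)).2
      simp only [add_apply, sub_apply, smul_apply, smul_eq_mul]
      linear_combination 60 * this
  have hresc : ∀ u : ℝ × ℝ, (60 : ℝ) • ((1 / 60 : ℝ) • u) = u := by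
    intro u; rw [smul_smul]; norm_num
  obtain ⟨k1, hk1⟩ : ∃ k1, ∀ u, α u = γ u + k1 := by
    refine ⟨α 0 - γ 0, fun u => ?_⟩
    have := (hconst ((1 / 60 : ℝ) • u) 0).1
    rw [hresc, smul_zero] at this
    linarith
  obtain ⟨k2, hk2⟩ : ∃ k2, ∀ u, β u = -γ u + k2 := by
    refine ⟨β 0 + γ 0, fun u => ?_⟩
    have := (hconst ((1 / 60 : ℝ) • u) 0).2
    rw [hresc, smul_zero] at this
    linarith
  -- the quotient `h = γ / S`
  set h : ℝ × ℝ → ℝ := fun u => γ u / P.S u with hh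
  have dS := hdS P
  have dh : Differentiable ℝ h := by
    intro u
    have h1 : DifferentiableAt ℝ (fun u => γ u * (P.S u)⁻¹) u :=
      (dγ u).mul ((dS u).inv (P.S_pos u).ne')
    have h2 : h = fun u => γ u * (P.S u)⁻¹ := by funext w; exact div_eq_mul_inv _ _
    rw [h2]; exact h1
  have hgr : ∀ u v, P.S u ^ 2 * fderiv ℝ h u v =
      P.S u * fderiv ℝ γ u v - γ u * fderiv ℝ P.S u v := by
    intro u v
    have e0 : ∀ u, γ u = h u * P.S u := by
      intro u
      simp only [hh]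
      have := (P.S_pos u).ne'
      field_simp
    have h1 := (dh u).hasFDerivAt.mul (dS u).hasFDerivAt
    have h2 : HasFDerivAt γ (h u • fderiv ℝ P.S u + P.S u • fderiv ℝ h u) u := by
      have e1 : γ = h * P.S := by funext w; exact e0 w
      rw [e1]; exact h1
    rw [h2.fderiv, e0 u]
    simp only [smul_apply, add_apply, smul_eq_mul]
    ring
  have hgrad : ∀ u, P.S u ^ 2 * (2 * fderiv ℝ h u (1, 0) - fderiv ℝ h u (0, 1)) =
      2 * k1 * fderiv ℝ P.S u (1, 0) + k2 * fderiv ℝ P.S u (0, 1) ∧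
      P.S u ^ 2 * (2 * fderiv ℝ h u (0, 1) - fderiv ℝ h u (1, 0)) =
      k2 * fderiv ℝ P.S u (1, 0) := by
    intro u
    obtain ⟨q1, -, -, q4⟩ := hq u
    have eα : fderiv ℝ α u = fderiv ℝ γ u := by
      have : α = fun u => γ u + k1 := funext hk1
      rw [this]
      simp
    rw [eα, hk1 u, hk2 u] at q1
    rw [hk2 u] at q4
    have g1 := hgr u (1, 0)
    have g2 := hgr u (0, 1)
    constructor
    · linear_combination 2 * g1 - g2 + q1
    · linear_combination 2 * g2 - g1 + q4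
  -- first band
  have hk2z : k2 = 0 := by
    have hb : ∀ y, 8 < y → y < 12 → 2 * k2 / 3 * (l' P y - l' P (17 / 2)) = 0 := by
      intro y hy1 hy2
      refine band (h := h) (l := fun y => -(1 + P.tL y)⁻¹) (l' := l' P) (c := k2 / 3)
        (c' := 2 * k2 / 3) (fun y _ _ => hasDeriv_l P y) ?_ ?_ hy1 hy2 (by norm_num) (by norm_num)
      · intro x y hx h1 h2
        have k := fst_line dh x y
        obtain ⟨e1, e2⟩ := hgrad (x, y)
        rw [(dS_band1 P hx h1 h2).1, (dS_band1 P hx h1 h2).2, S_band1 P hx h1 h2] at e1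
        rw [(dS_band1 P hx h1 h2).1, S_band1 P hx h1 h2] at e2
        refine k.congr_deriv ?_
        have hp := (P.pL y).ne'
        unfold l'
        field_simp
        linear_combination 2 * e1 + e2
      · intro x y hx h1 h2
        have k := snd_line dh x y
        obtain ⟨e1, e2⟩ := hgrad (x, y)
        rw [(dS_band1 P hx h1 h2).1, (dS_band1 P hx h1 h2).2, S_band1 P hx h1 h2] at e1
        rw [(dS_band1 P hx h1 h2).1, S_band1 P hx h1 h2] at e2
        refine k.congr_deriv ?_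
        have hp := (P.pL y).ne'
        unfold l'
        field_simp
        linear_combination e1 + 2 * e2
    have := slope_l P hb
    linarith
  -- second band
  have hk1z : k1 = 0 := by
    have hb : ∀ y, 8 < y → y < 12 → 2 * k1 / 3 * (l' P y - l' P (17 / 2)) = 0 := by
      intro y hy1 hy2
      refine band (h := fun u => h u.swap) (l := fun y => -(1 + P.tL y)⁻¹) (l' := l' P)
        (c := 4 * k1 / 3) (c' := 2 * k1 / 3) (fun y _ _ => hasDeriv_l P y) ?_ ?_ hy1 hy2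
        (by norm_num) (by norm_num)
      · intro x y hx h1 h2
        have k := snd_line dh y x
        obtain ⟨e1, e2⟩ := hgrad (y, x)
        rw [(dS_band2 P hx h1 h2).1, (dS_band2 P hx h1 h2).2, S_band2 P hx h1 h2, hk2z] at e1
        rw [(dS_band2 P hx h1 h2).2, S_band2 P hx h1 h2, hk2z] at e2
        refine k.congr_deriv ?_
        have hp := (P.pL y).ne'
        unfold l'
        field_simp
        linear_combination e1 + 2 * e2
      · intro x y hx h1 h2
        have k := fst_line dh y x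
        obtain ⟨e1, e2⟩ := hgrad (y, x)
        rw [(dS_band2 P hx h1 h2).1, (dS_band2 P hx h1 h2).2, S_band2 P hx h1 h2, hk2z] at e1
        rw [(dS_band2 P hx h1 h2).2, S_band2 P hx h1 h2, hk2z] at e2
        refine k.congr_deriv ?_
        have hp := (P.pL y).ne'
        unfold l'
        field_simp
        linear_combination 2 * e1 + e2
    have := slope_l P hb
    linarith
  -- conclusion
  have hz : ∀ u, fderiv ℝ h u = 0 := by
    intro u
    obtain ⟨e1, e2⟩ := hgrad u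
    rw [hk1z, hk2z] at e1
    rw [hk2z] at e2
    have hS := P.S_pos u
    have hS2 : P.S u ^ 2 ≠ 0 := by positivity
    have f1 : 2 * fderiv ℝ h u (1, 0) - fderiv ℝ h u (0, 1) = 0 := by
      have : P.S u ^ 2 * (2 * fderiv ℝ h u (1, 0) - fderiv ℝ h u (0, 1)) = 0 := by
        rw [e1]; ring
      exact (mul_eq_zero.1 this).resolve_left hS2
    have f2 : 2 * fderiv ℝ h u (0, 1) - fderiv ℝ h u (1, 0) = 0 := by
      have : P.S u ^ 2 * (2 * fderiv ℝ h u (0, 1) - fderiv ℝ h u (1, 0)) = 0 := by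
        rw [e2]; ring
      exact (mul_eq_zero.1 this).resolve_left hS2
    ext v
    · have := fderiv_dir h u (1, 0)
      simp only [ContinuousLinearMap.comp_apply, ContinuousLinearMap.inl_apply,
        ContinuousLinearMap.zero_apply]
      linarith
    · simp only [ContinuousLinearMap.comp_apply, ContinuousLinearMap.inr_apply,
        ContinuousLinearMap.zero_apply]
      linarith
  have hhc : ∀ u, h u = h 0 := fun u => is_const_of_fderiv_eq_zero dh hz u 0
  refine ⟨h 0, fun u => ?_⟩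
  have hγ : γ u = h 0 * P.S u := by
    rw [← hhc u]
    simp only [hh]
    have := (P.S_pos u).ne'
    field_simp
  refine ⟨?_, ?_, hγ⟩
  · rw [hk1, hk1z, hγ, add_zero]
  · rw [hk2, hk2z, hγ, add_zero]

end

end Pool.Agent.Y789.TQ
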